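import Pool.Agent.U140.FM.Def
set_option autoImplicit false
/-! Package C of project FM: the functional `F` is invariant under the automorphisms of the walk; the permutations of the
subtrees of the children of a vertex of the tree. -/
namespace Pool.Agent.U140.FM
open Finset

namespace PkgC

section gen

variable {V M : Type} [DecidableEq V] [Fintype M] [Inhabited M]
variable (step : V → M → V) (r : V → ℝ)

/-- the image of a walk -/
def T (τ : V → Equiv.Perm M) : (K : ℕ) → V → (Fin K → M) → (Fin K → M)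
  | 0, _, u => u
  | K + 1, x, u => Fin.cons (τ x (u 0)) (T τ K (step x (u 0)) (Fin.tail u))

omit [DecidableEq V] [Fintype M] [Inhabited M] in
theorem T_inj (τ : V → Equiv.Perm M) : ∀ (K : ℕ) (x : V), Function.Injective (T step τ K x)
  | 0, x => fun u u' _ => Subsingleton.elim _ _
  | K + 1, x => fun u u' h => by
    simp only [T] at h
    have h0 := congrFun h 0
    simp only [Fin.cons_zero] at h0
    have h1 : u 0 = u' 0 := (τ x).injective h0
    have h2 : Fin.tail (Fin.cons (τ x (u 0)) (T step τ K (step x (u 0)) (Fin.tail u)) : Fin (K + 1) → M) =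
      Fin.tail (Fin.cons (τ x (u' 0)) (T step τ K (step x (u' 0)) (Fin.tail u')) : Fin (K + 1) → M) := by
      rw [h]
    rw [Fin.tail_cons, Fin.tail_cons, h1] at h2
    have h3 := T_inj τ K _ h2
    rw [← Fin.cons_self_tail u, ← Fin.cons_self_tail u', h1, h3]

omit [DecidableEq V] [Inhabited M] in
theorem T_bij (τ : V → Equiv.Perm M) (K : ℕ) (x : V) : Function.Bijective (T step τ K x) := by
  classical
  exact Finite.injective_iff_bijective.mp (T_inj step τ K x)

omit [DecidableEq V] [Fintype M] [Inhabited M] in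
theorem path_T (φ : Equiv.Perm V) (τ : V → Equiv.Perm M) (hstep : ∀ x a, step (φ x) (τ x a) = φ (step x a)) :
    ∀ (K : ℕ) (x : V) (u : Fin K → M),
      path step (φ x) (List.ofFn (T step τ K x u)) = (path step x (List.ofFn u)).map φ
  | 0, x, u => by simp [path]
  | K + 1, x, u => by
    have e1 : List.ofFn (T step τ (K + 1) x u) =
        τ x (u 0) :: List.ofFn (T step τ K (step x (u 0)) (Fin.tail u)) := by
      rw [List.ofFn_succ]
      simp [T]
    have e2 : List.ofFn u = u 0 :: List.ofFn (Fin.tail u) := by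
      rw [List.ofFn_succ]
      rfl
    rw [e1, e2]
    simp only [path, List.map_cons]
    rw [hstep, path_T φ τ hstep K]

omit [DecidableEq V] [Fintype M] [Inhabited M] in
theorem gain_T (φ : Equiv.Perm V) (τ : V → Equiv.Perm M) (hstep : ∀ x a, step (φ x) (τ x a) = φ (step x a))
    (hr : ∀ x, r (φ x) = r x) (K : ℕ) (x : V) (u : Fin K → M) :
    gain step r (φ x) (T step τ K x u) = gain step r x u := by
  unfold gain
  rw [path_T step φ τ hstep, List.map_map]
  congr 1
  apply List.map_congr_left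
  intro y _
  exact hr y

omit [Fintype M] [Inhabited M] in
theorem vis_T (φ : Equiv.Perm V) (τ : V → Equiv.Perm M) (hstep : ∀ x a, step (φ x) (τ x a) = φ (step x a))
    (K : ℕ) (x : V) (u : Fin K → M) :
    vis step (φ x) (T step τ K x u) = (vis step x u).image φ := by
  unfold vis
  rw [path_T step φ τ hstep]
  ext y
  simp

omit [Fintype M] [Inhabited M] in
theorem mem_vis_T (φ : Equiv.Perm V) (τ : V → Equiv.Perm M) (hstep : ∀ x a, step (φ x) (τ x a) = φ (step x a))
    (K : ℕ) (x : V) (u : Fin K → M) (y : V) :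
    φ y ∈ vis step (φ x) (T step τ K x u) ↔ y ∈ vis step x u := by
  rw [vis_T step φ τ hstep]
  simp

variable {K : ℕ}

omit [Fintype M] [Inhabited M] in
theorem rtg1 (φ : Equiv.Perm V) (τ : V → Equiv.Perm M) (hstep : ∀ x a, step (φ x) (τ x a) = φ (step x a))
    (Z : Finset V) (w w' : V → Fin K → M) (hw : ∀ z ∈ Z, w' (φ z) = T step τ K z (w z)) (x z : V) (hx : x ∈ Z)
    (h : Relation.ReflTransGen (edge step Z w) x z) :
    z ∈ Z ∧ Relation.ReflTransGen (edge step (Z.image φ) w') (φ x) (φ z) := by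
  induction h with
  | refl => exact ⟨hx, Relation.ReflTransGen.refl⟩
  | tail _ hbc ih =>
    obtain ⟨hb, hp⟩ := ih
    obtain ⟨h1, h2⟩ := hbc
    refine ⟨h1, hp.tail ⟨mem_image_of_mem _ h1, ?_⟩⟩
    rw [hw _ hb, mem_vis_T step φ τ hstep]
    exact h2

omit [Fintype M] [Inhabited M] in
theorem rtg2 (φ : Equiv.Perm V) (τ : V → Equiv.Perm M) (hstep : ∀ x a, step (φ x) (τ x a) = φ (step x a))
    (Z : Finset V) (w w' : V → Fin K → M) (hw : ∀ z ∈ Z, w' (φ z) = T step τ K z (w z)) (x y : V) (hx : x ∈ Z)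
    (h : Relation.ReflTransGen (edge step (Z.image φ) w') (φ x) y) :
    ∃ z ∈ Z, φ z = y ∧ Relation.ReflTransGen (edge step Z w) x z := by
  induction h with
  | refl => exact ⟨x, hx, rfl, Relation.ReflTransGen.refl⟩
  | tail _ hbc ih =>
    obtain ⟨b, hb, rfl, hp⟩ := ih
    obtain ⟨h1, h2⟩ := hbc
    obtain ⟨c, hc, rfl⟩ := mem_image.mp h1
    refine ⟨c, hc, rfl, hp.tail ⟨hc, ?_⟩⟩
    rw [hw _ hb, mem_vis_T step φ τ hstep] at h2
    exact h2

omit [Fintype M] [Inhabited M] in
theorem reach_T (φ : Equiv.Perm V) (τ : V → Equiv.Perm M) (hstep : ∀ x a, step (φ x) (τ x a) = φ (step x a))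
    (Z : Finset V) (w w' : V → Fin K → M) (hw : ∀ z ∈ Z, w' (φ z) = T step τ K z (w z)) (X : Finset V) :
    reach step (Z.image φ) w' (X.image φ) = (reach step Z w X).image φ := by
  classical
  ext y
  simp only [reach, mem_filter, mem_image]
  constructor
  · rintro ⟨⟨z, hz, rfl⟩, x, ⟨x', hx', rfl⟩, ⟨x'', hx'', hxx⟩, h⟩
    have hxx' : x'' = x' := φ.injective hxx
    subst hxx'
    obtain ⟨z', hz', hzz, h'⟩ := rtg2 step φ τ hstep Z w w' hw x'' _ hx'' h
    have : z' = z := φ.injective hzz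
    subst this
    exact ⟨z', ⟨hz', x'', hx', hx'', h'⟩, rfl⟩
  · rintro ⟨z, ⟨hz, x, hx, hxZ, h⟩, rfl⟩
    exact ⟨⟨z, hz, rfl⟩, φ x, ⟨x, hx, rfl⟩, ⟨x, hxZ, rfl⟩, (rtg1 step φ τ hstep Z w w' hw x z hxZ h).2⟩

omit [Fintype M] [Inhabited M] in
theorem base_T (φ : Equiv.Perm V) (τ : V → Equiv.Perm M) (hstep : ∀ x a, step (φ x) (τ x a) = φ (step x a))
    (hr : ∀ x, r (φ x) = r x)
    (Z : Finset V) (w w' : V → Fin K → M) (hw : ∀ z ∈ Z, w' (φ z) = T step τ K z (w z)) (X : Finset V) :
    base step r (Z.image φ) w' (X.image φ) = base step r Z w X := by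
  classical
  unfold base
  rw [reach_T step φ τ hstep Z w w' hw, sum_image (fun a _ b _ h => φ.injective h)]
  apply sum_congr rfl
  intro z hz
  have hzZ : z ∈ Z := (mem_filter.mp hz).1
  rw [hw z hzZ, gain_T step r φ τ hstep hr]

theorem avg_comp {α : Type} [Fintype α] (e : α → α) (he : Function.Bijective e) (f : α → ℝ) :
    avg (fun x => f (e x)) = avg f := by
  unfold avg
  rw [he.sum_comp f]

omit [Inhabited M] in
theorem Phi_T (φ : Equiv.Perm V) (τ : V → Equiv.Perm M) (hstep : ∀ x a, step (φ x) (τ x a) = φ (step x a))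
    (hr : ∀ x, r (φ x) = r x)
    (Z : Finset V) (w w' : V → Fin K → M) (hw : ∀ z ∈ Z, w' (φ z) = T step τ K z (w z)) (O : List V) :
    ∀ X : Finset V, Phi step r (Z.image φ) w' (X.image φ) (O.map φ) = Phi step r Z w X O := by
  induction O with
  | nil =>
    intro X
    simp only [List.map_nil, Phi]
    exact base_T step r φ τ hstep hr Z w w' hw X
  | cons x O ih =>
    intro X
    simp only [List.map_cons, Phi]
    rw [← avg_comp (T step τ K x) (T_bij step τ K x)]
    congr 1
    ext u
    rw [gain_T step r φ τ hstep hr, vis_T step φ τ hstep, ← image_union, ih]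

end gen

/-- permutation of the subtrees as a function -/
def swf (v : Vt) (σ : Equiv.Perm (Fin 4)) : Vt → Vt
  | [] => []
  | c :: x => if x = v then σ c :: x else c :: swf v σ x

theorem swf_len (v : Vt) (σ : Equiv.Perm (Fin 4)) : ∀ x : Vt, (swf v σ x).length = x.length
  | [] => rfl
  | c :: x => by
    unfold swf
    split_ifs
    · rfl
    · simp [swf_len v σ x]

theorem swf_short (v : Vt) (σ : Equiv.Perm (Fin 4)) : ∀ x : Vt, x.length ≤ v.length → swf v σ x = x
  | [], _ => rfl
  | c :: x, h => by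
    have h1 : x.length + 1 ≤ v.length := by simpa using h
    unfold swf
    rw [if_neg (fun h2 => by rw [h2] at h1; omega), swf_short v σ x (by omega)]

theorem swf_eq (v : Vt) (σ : Equiv.Perm (Fin 4)) (x : Vt) : swf v σ x = v ↔ x = v := by
  constructor
  · intro h
    have h1 : x.length = v.length := by rw [← swf_len v σ x, h]
    rw [swf_short v σ x h1.le] at h
    exact h
  · rintro rfl
    exact swf_short _ σ _ le_rfl

theorem swf_inv (v : Vt) (σ σ' : Equiv.Perm (Fin 4)) (h : ∀ i, σ' (σ i) = i) :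
    ∀ x : Vt, swf v σ' (swf v σ x) = x
  | [] => rfl
  | c :: x => by
    by_cases hx : x = v
    · have e : swf v σ (c :: x) = σ c :: x := by
        rw [swf, if_pos hx]
      rw [e, swf, if_pos hx, h]
    · have e : swf v σ (c :: x) = c :: swf v σ x := by
        rw [swf, if_neg hx]
      rw [e, swf, if_neg (fun h2 => hx ((swf_eq v σ x).mp h2)), swf_inv v σ σ' h x]

theorem swf_child (v : Vt) (σ : Equiv.Perm (Fin 4)) (i : Fin 4) : ∀ l : Vt, swf v σ (l ++ i :: v) = l ++ σ i :: v
  | [] => by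
    show swf v σ (i :: v) = σ i :: v
    rw [swf, if_pos rfl]
  | c :: l => by
    show swf v σ (c :: (l ++ i :: v)) = c :: (l ++ σ i :: v)
    rw [swf, if_neg, swf_child v σ i l]
    intro h
    have := congrArg List.length h
    simp at this
    omega

theorem swf_fix (v : Vt) (σ : Equiv.Perm (Fin 4)) : ∀ x : Vt, (∀ l i, x ≠ l ++ i :: v) → swf v σ x = x
  | [], _ => rfl
  | c :: x, h => by
    rw [swf, if_neg (fun h2 => h [] c (by rw [h2]; rfl)), swf_fix v σ x]
    intro l i h2
    exact h (c :: l) i (by rw [h2]; rfl)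

end PkgC

section main

variable {V M : Type} [DecidableEq V] [Fintype M] [Inhabited M]
variable (step : V → M → V) (r : V → ℝ) (K : ℕ) (B : Finset V)

open PkgC in
theorem F_symm (φ : Equiv.Perm V) (τ : V → Equiv.Perm M) (hstep : ∀ x a, step (φ x) (τ x a) = φ (step x a))
    (hB : ∀ x, φ x ∈ B ↔ x ∈ B) (hr : ∀ x, r (φ x) = r x) (O : List V) (Z : Set V) :
    F step r K B (O.map φ) (φ '' Z) = F step r K B O Z := by
  classical
  have hB' : ∀ y ∈ B, φ.symm y ∈ B := fun y hy => by
    rw [← hB, Equiv.apply_symm_apply]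
    exact hy
  let Ψ : (B → Fin K → M) → (B → Fin K → M) := fun w y =>
    T step τ K (φ.symm y.1) (w ⟨φ.symm y.1, hB' y.1 y.2⟩)
  have hΨ : Function.Bijective Ψ := by
    apply Finite.injective_iff_bijective.mp
    intro w w' h
    ext1 x
    have h1 := congrFun h ⟨φ x.1, (hB x.1).mpr x.2⟩
    have h2 : ∀ y : B, (h : y = ⟨φ x.1, (hB x.1).mpr x.2⟩) → (⟨φ.symm y.1, hB' y.1 y.2⟩ : B) = x := by
      rintro y rfl
      apply Subtype.ext
      simp
    have h3 := h2 _ rfl
    simp only [Ψ] at h1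
    rw [h3] at h1
    exact T_inj step τ K _ h1
  have hf : B.filter (· ∈ φ '' Z) = (B.filter (· ∈ Z)).image φ := by
    ext y
    simp only [mem_filter, mem_image, Set.mem_image]
    constructor
    · rintro ⟨h1, z, hz, rfl⟩
      exact ⟨z, ⟨(hB z).mp h1, hz⟩, rfl⟩
    · rintro ⟨z, ⟨h1, hz⟩, rfl⟩
      exact ⟨(hB z).mpr h1, z, hz, rfl⟩
  unfold F
  rw [← avg_comp Ψ hΨ]
  congr 1
  ext w
  have e0 : (∅ : Finset V) = (∅ : Finset V).image φ := by simp
  have hw : ∀ z ∈ B.filter (· ∈ Z), ext B (Ψ w) (φ z) = T step τ K z (ext B w z) := by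
    intro z hz
    have hzB : z ∈ B := (mem_filter.mp hz).1
    have hφ : φ z ∈ B := (hB z).mpr hzB
    unfold ext
    rw [dif_pos hφ, dif_pos hzB]
    have h2 : ∀ y : B, (h : y = ⟨φ z, hφ⟩) → (⟨φ.symm y.1, hB' y.1 y.2⟩ : B) = ⟨z, hzB⟩ := by
      rintro y rfl
      apply Subtype.ext
      simp
    have h3 := h2 _ rfl
    simp only [Ψ]
    rw [h3]
    simp
  calc Phi step r (B.filter (· ∈ φ '' Z)) (ext B (Ψ w)) ∅ (O.map φ)
      = Phi step r ((B.filter (· ∈ Z)).image φ) (ext B (Ψ w)) ((∅ : Finset V).image φ) (O.map φ) := by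
        rw [← e0]
        congr 1
    _ = Phi step r (B.filter (· ∈ Z)) (ext B w) ∅ O :=
        Phi_T step r φ τ hstep hr _ (ext B w) (ext B (Ψ w)) hw O ∅

end main

/-- permute the subtrees of the children of `v`: `l ++ (i :: v)` is mapped to `l ++ (σ i :: v)`, everything else is fixed -/
noncomputable def sw (v : Vt) (σ : Equiv.Perm (Fin 4)) : Equiv.Perm Vt where
  toFun := PkgC.swf v σ
  invFun := PkgC.swf v σ.symm
  left_inv := PkgC.swf_inv v σ σ.symm (fun i => σ.symm_apply_apply i)
  right_inv := PkgC.swf_inv v σ.symm σ (fun i => σ.apply_symm_apply i)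

theorem sw_child (v : Vt) (σ : Equiv.Perm (Fin 4)) (l : Vt) (i : Fin 4) : sw v σ (l ++ i :: v) = l ++ σ i :: v :=
  PkgC.swf_child v σ i l

theorem sw_fix (v : Vt) (σ : Equiv.Perm (Fin 4)) (x : Vt) (h : ∀ l i, x ≠ l ++ i :: v) : sw v σ x = x :=
  PkgC.swf_fix v σ x h

namespace PkgC

theorem sw_len (v : Vt) (σ : Equiv.Perm (Fin 4)) (x : Vt) : (sw v σ x).length = x.length := swf_len v σ x

theorem sw_cons (v : Vt) (σ : Equiv.Perm (Fin 4)) (c : Fin 4) (x : Vt) :
    sw v σ (c :: x) = if x = v then σ c :: x else c :: sw v σ x := rfl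

theorem sw_nil (v : Vt) (σ : Equiv.Perm (Fin 4)) : sw v σ [] = [] := rfl

theorem sw_self (v : Vt) (σ : Equiv.Perm (Fin 4)) : sw v σ v = v := swf_short v σ v le_rfl

theorem sw_eq_nil (v : Vt) (σ : Equiv.Perm (Fin 4)) (x : Vt) : sw v σ x = [] ↔ x = [] := by
  rw [← List.length_eq_zero_iff, sw_len, List.length_eq_zero_iff]

theorem mem_ball (n : ℕ) (x : Vt) : x ∈ ball n ↔ x.length ≤ n := by
  unfold ball
  rw [Set.Finite.mem_toFinset]
  rfl

/-- the relabelling of the moves -/
noncomputable def tau (v : Vt) (σ : Equiv.Perm (Fin 4)) (x : Vt) : Equiv.Perm Mv :=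
  if x = v then Equiv.prodCongr σ (Equiv.refl _) else Equiv.refl _

theorem tau_self (v : Vt) (σ : Equiv.Perm (Fin 4)) (a : Mv) : tau v σ v a = (σ a.1, a.2) := by
  unfold tau
  rw [if_pos rfl]
  rfl

theorem tau_ne (v : Vt) (σ : Equiv.Perm (Fin 4)) (x : Vt) (h : x ≠ v) (a : Mv) : tau v σ x a = a := by
  unfold tau
  rw [if_neg h]
  rfl

theorem tau_snd (v : Vt) (σ : Equiv.Perm (Fin 4)) (x : Vt) (a : Mv) : (tau v σ x a).2 = a.2 := by
  by_cases h : x = v
  · subst h
    rw [tau_self]
  · rw [tau_ne v σ x h]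

theorem hstep (n : ℕ) (v : Vt) (σ : Equiv.Perm (Fin 4)) (x : Vt) (a : Mv) :
    stepT n (sw v σ x) (tau v σ x a) = sw v σ (stepT n x a) := by
  by_cases h1 : n < x.length
  · have h1' : n < (sw v σ x).length := by rw [sw_len]; exact h1
    unfold stepT
    rw [if_pos h1', if_pos h1]
  · have h1' : ¬ n < (sw v σ x).length := by rw [sw_len]; exact h1
    by_cases h2 : x = []
    · subst h2
      have e : stepT n ([] : Vt) a = [a.1] := by
        unfold stepT
        rw [if_neg h1, if_pos rfl]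
      have e' : stepT n ([] : Vt) (tau v σ [] a) = [(tau v σ [] a).1] := by
        unfold stepT
        rw [if_neg h1, if_pos rfl]
      rw [sw_nil, e, e', sw_cons]
      by_cases h3 : ([] : Vt) = v
      · rw [if_pos h3]
        subst h3
        rw [tau_self]
      · rw [if_neg h3, tau_ne v σ _ h3, sw_nil]
    · have h2' : ¬ sw v σ x = [] := by rw [sw_eq_nil]; exact h2
      by_cases h3 : a.2 = 0
      · have e : stepT n x a = x.tail := by
          unfold stepT
          rw [if_neg h1, if_neg h2, if_pos h3]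
        have e' : stepT n (sw v σ x) (tau v σ x a) = (sw v σ x).tail := by
          unfold stepT
          rw [if_neg h1', if_neg h2', if_pos (by rw [tau_snd]; exact h3)]
        rw [e, e']
        obtain ⟨c, y, rfl⟩ : ∃ c y, x = c :: y := by
          cases x with
          | nil => exact absurd rfl h2
          | cons c y => exact ⟨c, y, rfl⟩
        rw [sw_cons]
        by_cases h4 : y = v
        · rw [if_pos h4]
          subst h4
          simp [sw_self]
        · rw [if_neg h4]
          rfl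
      · have e : stepT n x a = a.1 :: x := by
          unfold stepT
          rw [if_neg h1, if_neg h2, if_neg h3]
        have e' : stepT n (sw v σ x) (tau v σ x a) = (tau v σ x a).1 :: sw v σ x := by
          unfold stepT
          rw [if_neg h1', if_neg h2', if_neg (by rw [tau_snd]; exact h3)]
        rw [e, e', sw_cons]
        by_cases h4 : x = v
        · rw [if_pos h4]
          subst h4
          rw [tau_self, sw_self]
        · rw [if_neg h4, tau_ne v σ x h4]

end PkgC

theorem FT_sw (n K : ℕ) (v : Vt) (σ : Equiv.Perm (Fin 4)) (O : List Vt) (hO : ∀ x ∈ O, ∀ l i, x ≠ l ++ i :: v) (Z : Set Vt) :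
    FT n K O (sw v σ '' Z) = FT n K O Z := by
  have hmap : O.map (sw v σ) = O := by
    conv_rhs => rw [← List.map_id O]
    apply List.map_congr_left
    intro x hx
    exact sw_fix v σ x (hO x hx)
  have h := F_symm (stepT n) rt K (ball n) (sw v σ) (PkgC.tau v σ) (PkgC.hstep n v σ)
    (fun x => by rw [PkgC.mem_ball, PkgC.mem_ball, PkgC.sw_len])
    (fun x => by unfold rt; simp only [PkgC.sw_eq_nil]) O Z
  rw [hmap] at h
  exact h

end Pool.Agent.U140.FM
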